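import Mathlib
import Pool.Agent.H759R2.Kad.Props6

/-!
Kadison similarity problem, part 5: nearly tracial corners for partial isometries (task W9).
-/

open scoped ComplexOrder InnerProductSpace ComplexConjugate
open Finset

noncomputable section

namespace H759R2.Kad

universe u v

namespace NearAux

section lemmas

variable {A : Type u} [CStarAlgebra A]

theorem prj_left {a : A} (h : PIs a) : Prj (star a * a) := by
  have h' : a * star a * a = a := h
  refine ⟨by rw [star_mul, star_star], ?_⟩
  calc star a * a * (star a * a) = star a * (a * star a * a) := by noncomm_ring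
    _ = star a * a := by rw [h']

theorem prj_right {a : A} (h : PIs a) : Prj (a * star a) := by
  have h' : a * star a * a = a := h
  refine ⟨by rw [star_mul, star_star], ?_⟩
  calc a * star a * (a * star a) = (a * star a * a) * star a := by noncomm_ring
    _ = a * star a := by rw [h']

theorem pis_of_prj {p : A} (h : Prj p) : PIs p := by
  show p * star p * p = p
  rw [h.1, h.2, h.2]

theorem eq_of_sub_star {x y : A} (h : star (x - y) * (x - y) = 0) : x = y :=
  sub_eq_zero.1 (CStarRing.star_mul_self_eq_zero_iff _ |>.1 h)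

/-- `w* w = p` projection implies `w p = w` -/
theorem mul_of_init {w p : A} (hp : Prj p) (hw : star w * w = p) : w * p = w := by
  apply eq_of_sub_star
  calc star (w * p - w) * (w * p - w)
      = star p * (star w * w) * p - star p * (star w * w) - (star w * w) * p + star w * w := by
        rw [star_sub, star_mul]; noncomm_ring
    _ = 0 := by rw [hw, hp.1, hp.2, hp.2]; abel

theorem star_mul_eq {p q : A} (hp : Prj p) (hq : Prj q) (h : p * q = q) : q * p = q := by
  calc q * p = star (p * q) := by rw [star_mul, hp.1, hq.1]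
    _ = q := by rw [h, hq.1]

theorem star_fix {p a : A} (hp : Prj p) (h : a * p = a) : p * star a = star a := by
  calc p * star a = star (a * p) := by rw [star_mul, hp.1]
    _ = star a := by rw [h]

/-- `x ↦ φ (w x w*)` -/
def cj (φ : A →ₗ[ℂ] ℂ) (w : A) : A →ₗ[ℂ] ℂ where
  toFun x := φ (w * x * star w)
  map_add' x y := by rw [mul_add, add_mul, map_add]
  map_smul' c x := by
    rw [mul_smul_comm, smul_mul_assoc, map_smul, RingHom.id_apply]

theorem cj_apply (φ : A →ₗ[ℂ] ℂ) (w x : A) : cj φ w x = φ (w * x * star w) := rfl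

theorem nrm_cj {φ : A →ₗ[ℂ] ℂ} (h : Nrm φ) (w : A) : Nrm (cj φ w) := by
  refine ⟨fun a => ?_, fun w' C V hC hV ε hε => ?_⟩
  · rw [cj_apply]
    have := h.pos (a * star w)
    rw [star_mul, star_star] at this
    have e : w * (star a * a) * star w = w * star a * (a * star w) := by noncomm_ring
    rw [e]
    exact this
  · obtain ⟨v, hv, h1, h2⟩ := h.chain (w * w') C V hC hV ε hε
    refine ⟨v, hv, ?_, ?_⟩
    · have e : ∀ x : A, w * w' * x * star (w * w') = w * (w' * x * star w') * star w := by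
        intro x
        rw [star_mul]
        noncomm_ring
      rw [e, e] at h1
      exact h1
    · have e : ∀ x : A, w * w' * x * star (w * w') = w * (w' * x * star w') * star w := by
        intro x
        rw [star_mul]
        noncomm_ring
      rw [e, e] at h2
      exact h2

theorem smul_re (φ : A →ₗ[ℂ] ℂ) (c : ℝ) (x : A) : (((c : ℂ) • φ) x).re = c * (φ x).re := by
  rw [LinearMap.smul_apply, smul_eq_mul, Complex.re_ofReal_mul]

theorem nrm_smul {φ : A →ₗ[ℂ] ℂ} (h : Nrm φ) {c : ℝ} (hc : 0 < c) : Nrm ((c : ℂ) • φ) := by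
  refine ⟨fun a => ?_, fun w C V hC hV ε hε => ?_⟩
  · rw [LinearMap.smul_apply, smul_eq_mul]
    exact mul_nonneg (by exact_mod_cast hc.le) (h.pos a)
  · obtain ⟨v, hv, h1, h2⟩ := h.chain w C V hC hV (ε / c) (div_pos hε hc)
    have key : ∀ r r' : ℝ, r - ε / c ≤ r' → c * r - ε ≤ c * r' := by
      intro r r' hr
      have := mul_le_mul_of_nonneg_left hr hc.le
      rw [mul_sub, mul_div_cancel₀ _ hc.ne'] at this
      exact this
    refine ⟨v, hv, ?_, ?_⟩
    · rw [smul_re, smul_re]
      exact key _ _ h1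
    · rw [smul_re, smul_re]
      exact key _ _ h2

theorem nrm_re {φ : A →ₗ[ℂ] ℂ} (h : Nrm φ) (a : A) : 0 ≤ (φ (star a * a)).re :=
  (Complex.le_def.1 (h.pos a)).1

theorem nrm_re' {φ : A →ₗ[ℂ] ℂ} (h : Nrm φ) (a : A) : 0 ≤ (φ (a * star a)).re := by
  have := nrm_re h (star a)
  rwa [star_star] at this

theorem nrm_eq {φ : A →ₗ[ℂ] ℂ} (h : Nrm φ) (a : A) (h0 : (φ (star a * a)).re = 0) :
    φ (star a * a) = 0 :=
  Complex.ext h0 (Complex.le_def.1 (h.pos a)).2.symm

/-- faithfulness gives strict positivity -/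
theorem pos_of_faith {φ : A →ₗ[ℂ] ℂ} (h : Nrm φ) {s : A}
    (hf : ∀ e, Prj e → s * e = e → φ e = 0 → e = 0) {e : A} (he : Prj e) (hs : s * e = e)
    (h0 : e ≠ 0) : 0 < (φ e).re := by
  have e1 : star e * e = e := by rw [he.1, he.2]
  have h1 : 0 ≤ (φ e).re := by
    have := nrm_re h e
    rwa [e1] at this
  rcases h1.lt_or_eq with h2 | h2
  · exact h2
  · exfalso
    apply h0
    apply hf e he hs
    have := nrm_eq h e (by rw [e1]; exact h2.symm)
    rwa [e1] at this

end lemmas

end NearAux

open NearAux in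
theorem prove6_near (h1 : W_sel.{u}) (h2 : W_exh.{u}) : W_near.{u} := by
  intro A _ hA φ hφ s hs hs0 hfnt hf ε hε
  -- (1)
  obtain ⟨p, w, hp, hsp, hp0, hwp, hsw, hsel⟩ := h1 A hA φ hφ s hs hs0 hfnt hf
  have hwp1 : w * p = w := mul_of_init hp hwp
  have hwpi : PIs w := by
    show w * star w * w = w
    rw [mul_assoc, hwp, hwp1]
  have hpp : ∀ {e : A}, p * e = e → s * e = e := by
    intro e he
    rw [← he, ← mul_assoc, hsp]
  -- `φ_w p > 0`
  have hB : 0 < (cj φ w p).re := by
    rw [cj_apply, hwp1]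
    apply pos_of_faith hφ hf (prj_right hwpi)
    · rw [← mul_assoc, hsw]
    · intro h0
      apply hp0
      have hw0 : w = 0 := by
        have : w * star w * w = w := hwpi
        rw [h0, zero_mul] at this
        exact this.symm
      rw [← hwp, hw0, mul_zero]
  have hpre : 0 < (φ p).re := pos_of_faith hφ hf hp hsp hp0
  -- (2)
  obtain ⟨C2, hC2, hC2'⟩ : ∃ C2 : ℝ, 0 < C2 ∧ (φ p).re < C2 * (cj φ w p).re := by
    refine ⟨(φ p).re / (cj φ w p).re + 1, by positivity, ?_⟩
    rw [add_mul, one_mul, div_mul_cancel₀ _ hB.ne']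
    linarith
  obtain ⟨p', hp', hpp', hp'0, hexh⟩ := h2 A hA φ ((C2 : ℂ) • cj φ w) hφ
    (nrm_smul (nrm_cj hφ w) hC2) p hp (by rw [smul_re]; exact hC2')
  have hp'p : p' * p = p' := star_mul_eq hp hp' hpp'
  have hsp' : s * p' = p' := hpp hpp'
  -- (3)
  have h3 : ∀ a : A, PIs a → p' * a = a → a * p' = a →
      (φ (a * star a)).re ≤ 2 * C2 * (φ (star a * a)).re := by
    intro a ha hpa hap
    have ha' : a * star a * a = a := ha
    have hpa1 : p * a = a := by rw [← hpa, ← mul_assoc, hpp']
    have hap1 : a * p = a := by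
      calc a * p = a * p' * p := by rw [hap]
        _ = a * (p' * p) := by rw [mul_assoc]
        _ = a := by rw [hp'p, hap]
    have hss : star (w * a) * (w * a) = star a * a := by
      calc star (w * a) * (w * a) = star a * ((star w * w) * a) := by
            rw [star_mul]; noncomm_ring
        _ = star a * a := by rw [hwp, hpa1]
    have hu1 : PIs (w * a) := by
      show w * a * star (w * a) * (w * a) = w * a
      rw [mul_assoc, hss]
      calc w * a * (star a * a) = w * (a * star a * a) := by noncomm_ring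
        _ = w * a := by rw [ha']
    have hu2 : w * a * p = w * a := by rw [mul_assoc, hap1]
    have hu3 : w * star w * (w * a) = w * a := by
      rw [← mul_assoc]
      have : w * star w * w = w := hwpi
      rw [this]
    have hq := hsel (w * a) hu1 hu2 hu3
    rw [hss] at hq
    have hq2 : w * a * star (w * a) = w * (a * star a) * star w := by
      rw [star_mul]; noncomm_ring
    rw [hq2] at hq
    have hq3 := hexh (a * star a) (prj_right ha) (by rw [← mul_assoc, hpa])
    rw [smul_re, cj_apply] at hq3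
    calc (φ (a * star a)).re ≤ C2 * (φ (w * (a * star a) * star w)).re := hq3
      _ ≤ C2 * (2 * (φ (star a * a)).re) := mul_le_mul_of_nonneg_left hq hC2.le
      _ = 2 * C2 * (φ (star a * a)).re := by ring
  -- positivity
  have h4 : ∀ a : A, PIs a → a ≠ 0 → a * p' = a → 0 < (φ (star a * a)).re := by
    intro a ha ha0 hap
    apply pos_of_faith hφ hf (prj_left ha)
    · have h5 : p' * (star a * a) = star a * a := by
        rw [← mul_assoc, star_fix hp' hap]
      exact hpp (by rw [← h5, ← mul_assoc, hpp'])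
    · intro h0
      exact ha0 ((CStarRing.star_mul_self_eq_zero_iff a).1 h0)
  -- (4)
  obtain ⟨S, hSdef⟩ : ∃ S : Set ℝ, S = {r : ℝ | ∃ a : A, PIs a ∧ a ≠ 0 ∧ p' * a = a ∧ a * p' = a ∧
    r = (φ (a * star a)).re / (φ (star a * a)).re} := ⟨_, rfl⟩
  have hSbd : BddAbove S := by
    refine ⟨2 * C2, ?_⟩
    rw [hSdef]
    rintro r ⟨a, ha, ha0, hpa, hap, rfl⟩
    rw [div_le_iff₀ (h4 a ha ha0 hap)]
    exact h3 a ha hpa hap
  have hS1 : (1 : ℝ) ∈ S := by
    rw [hSdef]
    refine ⟨p', pis_of_prj hp', hp'0, hp'.2, hp'.2, ?_⟩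
    have h5 := h4 p' (pis_of_prj hp') hp'0 hp'.2
    rw [hp'.1] at h5 ⊢
    rw [div_self h5.ne']
  have hmu : 1 ≤ sSup S := le_csSup hSbd hS1
  obtain ⟨mu, hmudef⟩ : ∃ mu : ℝ, mu = sSup S := ⟨_, rfl⟩
  rw [← hmudef] at hmu
  have hmu0 : 0 < mu := by linarith
  have hlt : mu / (1 + ε) < sSup S := by
    rw [← hmudef, div_lt_iff₀ (by linarith)]
    nlinarith
  obtain ⟨r, hrS, hr⟩ := exists_lt_of_lt_csSup ⟨1, hS1⟩ hlt
  rw [hSdef] at hrS
  obtain ⟨a0, ha0, ha00, hpa0, hap0, rfl⟩ := hrS
  have hpos0 := h4 a0 ha0 ha00 hap0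
  rw [lt_div_iff₀ hpos0] at hr
  have ha0' : a0 * star a0 * a0 = a0 := ha0
  -- (5)
  have hc : 0 < mu / (1 + ε) := by positivity
  obtain ⟨p'', hp'', hep'', hp''0, hexh2⟩ := h2 A hA (((mu / (1 + ε) : ℝ) : ℂ) • φ) (cj φ a0)
    (nrm_smul hφ hc) (nrm_cj hφ a0) (star a0 * a0) (prj_left ha0) (by
      rw [smul_re, cj_apply]
      have e : a0 * (star a0 * a0) * star a0 = a0 * star a0 := by
        rw [← mul_assoc, ha0']
      rw [e]
      exact hr)
  have hp''e : p'' * (star a0 * a0) = p'' := star_mul_eq (prj_left ha0) hp'' hep''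
  have hep' : star a0 * a0 * p' = star a0 * a0 := by rw [mul_assoc, hap0]
  have hp'e : p' * (star a0 * a0) = star a0 * a0 := by rw [← mul_assoc, star_fix hp' hap0]
  have hp''p' : p'' * p' = p'' := by
    calc p'' * p' = p'' * (star a0 * a0) * p' := by rw [hp''e]
      _ = p'' * (star a0 * a0 * p') := by noncomm_ring
      _ = p'' := by rw [hep', hp''e]
  have hp'p'' : p' * p'' = p'' := by
    calc p' * p'' = p' * (star a0 * a0 * p'') := by rw [hep'']
      _ = p' * (star a0 * a0) * p'' := by noncomm_ring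
      _ = p'' := by rw [hp'e, hep'']
  refine ⟨p'', hp'', ?_, hp''0, ?_⟩
  · calc s * p'' = s * (p' * p'') := by rw [hp'p'']
      _ = s * p' * p'' := by rw [mul_assoc]
      _ = p'' := by rw [hsp', hp'p'']
  -- (6)
  intro a ha hpa hap
  have ha' : a * star a * a = a := ha
  by_cases haz : a = 0
  · subst haz
    simp
  have hea : star a0 * a0 * a = a := by
    calc star a0 * a0 * a = star a0 * a0 * (p'' * a) := by rw [hpa]
      _ = star a0 * a0 * p'' * a := by noncomm_ring
      _ = a := by rw [hep'', hpa]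
  have hss : star (a0 * a) * (a0 * a) = star a * a := by
    calc star (a0 * a) * (a0 * a) = star a * (star a0 * a0 * a) := by
          rw [star_mul]; noncomm_ring
      _ = star a * a := by rw [hea]
  have hu0 : a0 * a ≠ 0 := by
    intro h0
    apply haz
    rw [← hea, mul_assoc, h0, mul_zero]
  have hu1 : PIs (a0 * a) := by
    show a0 * a * star (a0 * a) * (a0 * a) = a0 * a
    rw [mul_assoc, hss]
    calc a0 * a * (star a * a) = a0 * (a * star a * a) := by noncomm_ring
      _ = a0 * a := by rw [ha']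
  have hu2 : p' * (a0 * a) = a0 * a := by rw [← mul_assoc, hpa0]
  have hu3 : a0 * a * p' = a0 * a := by
    calc a0 * a * p' = a0 * ((a * p'') * p') := by rw [hap]; noncomm_ring
      _ = a0 * (a * (p'' * p')) := by noncomm_ring
      _ = a0 * a := by rw [hp''p', hap]
  have hmem : (φ (a0 * a * star (a0 * a))).re / (φ (star (a0 * a) * (a0 * a))).re ∈ S := by
    rw [hSdef]
    exact ⟨a0 * a, hu1, hu0, hu2, hu3, rfl⟩
  have hle := le_csSup hSbd hmem
  rw [← hmudef, div_le_iff₀ (h4 _ hu1 hu0 hu3), hss] at hle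
  have hq := hexh2 (a * star a) (prj_right ha) (by rw [← mul_assoc, hpa])
  rw [smul_re, cj_apply] at hq
  have e2 : a0 * (a * star a) * star a0 = a0 * a * star (a0 * a) := by
    rw [star_mul]; noncomm_ring
  rw [e2] at hq
  have hfin : mu / (1 + ε) * (φ (a * star a)).re ≤ mu * (φ (star a * a)).re := hq.trans hle
  have h1e : 0 < 1 + ε := by linarith
  rw [div_mul_eq_mul_div, div_le_iff₀ h1e] at hfin
  have h6 : mu * (φ (a * star a)).re ≤ mu * ((1 + ε) * (φ (star a * a)).re) := by
    calc mu * (φ (a * star a)).re ≤ mu * (φ (star a * a)).re * (1 + ε) := hfin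
      _ = mu * ((1 + ε) * (φ (star a * a)).re) := by ring
  exact le_of_mul_le_mul_left h6 hmu0

end H759R2.Kad
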